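import Pool.Agent.Helper34.PN.Defs

/-!
Row DSAMP of the PN table (MP_08bd45_co): small nets from few traces, by double sampling.
-/

namespace Pool.Agent.Helper34.PN

open Finset

section dsamp

variable {β : Type} [Fintype β] [DecidableEq β]

lemma ds_count (k : ℕ) (E : Finset β) (i : Fin k) :
    Fintype.card β * ((univ : Finset (Fin k → β)).filter (fun v => v i ∈ E)).card
      = E.card * (Fintype.card β) ^ k := by
  classical
  have h1 : (univ : Finset (Fin k → β)).filter (fun v => v i ∈ E)
      = Fintype.piFinset (fun j => if j = i then E else univ) := by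
    ext v
    simp only [mem_filter, mem_univ, true_and, Fintype.mem_piFinset]
    constructor
    · intro h j
      by_cases hj : j = i
      · subst hj
        simpa using h
      · simp [hj]
    · intro h
      simpa using h i
  have h2 : ∏ j : Fin k, (if j = i then E else (univ : Finset β)).card
      = E.card * (Fintype.card β) ^ (k - 1) := by
    rw [← Finset.mul_prod_erase univ _ (mem_univ i)]
    have h3 : ∏ j ∈ (univ : Finset (Fin k)).erase i,
        (if j = i then E else (univ : Finset β)).card
        = ∏ _j ∈ (univ : Finset (Fin k)).erase i, Fintype.card β := by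
      apply Finset.prod_congr rfl
      intro j hj
      rw [if_neg (Finset.ne_of_mem_erase hj)]
      rfl
    rw [h3, Finset.prod_const, Finset.card_erase_of_mem (mem_univ i), Finset.card_univ,
      Fintype.card_fin, if_pos rfl]
  have hk : k - 1 + 1 = k := by
    have := i.isLt
    omega
  rw [h1, Fintype.card_piFinset, h2]
  calc Fintype.card β * (E.card * Fintype.card β ^ (k - 1))
      = E.card * (Fintype.card β ^ (k - 1) * Fintype.card β) := by ring
    _ = E.card * Fintype.card β ^ k := by rw [← pow_succ, hk]

lemma ds_step1 (k q : ℕ) (hk : 1 ≤ k) (hn : 0 < Fintype.card β)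
    (E : Finset β) (hE : Fintype.card β ≤ q * E.card) :
    (Fintype.card β) ^ k ≤ 2 * q * ((univ : Finset (Fin k → β)).filter
      (fun v => k / (2 * q) ≤ (univ.filter (fun i => v i ∈ E)).card)).card := by
  classical
  set n := Fintype.card β with hndef
  set t := k / (2 * q) with ht
  have h1 : ∑ v : Fin k → β, (univ.filter (fun i => v i ∈ E)).card
      = ∑ i : Fin k, ((univ : Finset (Fin k → β)).filter (fun v => v i ∈ E)).card := by
    simp_rw [Finset.card_filter]
    rw [Finset.sum_comm]
  have h2 : n * ∑ v : Fin k → β, (univ.filter (fun i => v i ∈ E)).card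
      = k * (E.card * n ^ k) := by
    rw [h1, Finset.mul_sum]
    simp_rw [hndef, ds_count k E]
    rw [Finset.sum_const, Finset.card_univ, Fintype.card_fin, smul_eq_mul]
  have h3 : k * n ^ k ≤ q * ∑ v : Fin k → β, (univ.filter (fun i => v i ∈ E)).card := by
    have h4 : n * (k * n ^ k)
        ≤ n * (q * ∑ v : Fin k → β, (univ.filter (fun i => v i ∈ E)).card) := by
      calc n * (k * n ^ k) ≤ (q * E.card) * (k * n ^ k) := Nat.mul_le_mul_right _ hE
        _ = q * (k * (E.card * n ^ k)) := by ring
        _ = q * (n * ∑ v : Fin k → β, (univ.filter (fun i => v i ∈ E)).card) := by rw [h2]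
        _ = n * (q * ∑ v : Fin k → β, (univ.filter (fun i => v i ∈ E)).card) := by ring
    exact Nat.le_of_mul_le_mul_left h4 hn
  set N := ((univ : Finset (Fin k → β)).filter
      (fun v => t ≤ (univ.filter (fun i => v i ∈ E)).card)).card with hN
  have h5 : ∑ v : Fin k → β, (univ.filter (fun i => v i ∈ E)).card
      ≤ t * n ^ k + k * N := by
    have h6 : ∀ v : Fin k → β, (univ.filter (fun i => v i ∈ E)).card
        ≤ t + k * (if t ≤ (univ.filter (fun i => v i ∈ E)).card then 1 else 0) := by
      intro v
      have hle : (univ.filter (fun i => v i ∈ E)).card ≤ k := by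
        calc (univ.filter (fun i => v i ∈ E)).card ≤ (univ : Finset (Fin k)).card :=
              Finset.card_filter_le _ _
          _ = k := by rw [Finset.card_univ, Fintype.card_fin]
      by_cases hv : t ≤ (univ.filter (fun i => v i ∈ E)).card
      · rw [if_pos hv, mul_one]
        exact hle.trans (Nat.le_add_left _ _)
      · rw [if_neg hv, mul_zero, Nat.add_zero]
        exact (not_le.mp hv).le
    calc ∑ v : Fin k → β, (univ.filter (fun i => v i ∈ E)).card
        ≤ ∑ v : Fin k → β, (t + k * (if t ≤ (univ.filter (fun i => v i ∈ E)).card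
            then 1 else 0)) := Finset.sum_le_sum (fun v _ => h6 v)
      _ = t * n ^ k + k * N := by
          rw [Finset.sum_add_distrib, Finset.sum_const, Finset.card_univ, Fintype.card_fun,
            Fintype.card_fin, smul_eq_mul, ← Finset.mul_sum, hN, Finset.card_filter]
          ring
  have h7 : 2 * q * t ≤ k := Nat.mul_div_le k (2 * q)
  have h8 : k * n ^ k ≤ k * (2 * q * N) := by
    have h9 : k * n ^ k ≤ q * (t * n ^ k + k * N) := h3.trans (Nat.mul_le_mul_left _ h5)
    have h10 : 2 * (k * n ^ k) ≤ k * n ^ k + 2 * q * (k * N) := by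
      calc 2 * (k * n ^ k) ≤ 2 * (q * (t * n ^ k + k * N)) := Nat.mul_le_mul_left _ h9
        _ = (2 * q * t) * n ^ k + 2 * q * (k * N) := by ring
        _ ≤ k * n ^ k + 2 * q * (k * N) :=
            Nat.add_le_add_right (Nat.mul_le_mul_right _ h7) _
    have h11 : 2 * q * (k * N) = k * (2 * q * N) := by ring
    omega
  exact Nat.le_of_mul_le_mul_left h8 hk

/-- swap the two samples in the coordinates where `τ` is true -/
def dsSwap (k : ℕ) (τ : Fin k → Bool) (p : (Fin k → β) × (Fin k → β)) :
    (Fin k → β) × (Fin k → β) :=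
  (fun i => if τ i then p.2 i else p.1 i, fun i => if τ i then p.1 i else p.2 i)

omit [Fintype β] [DecidableEq β] in
lemma dsSwap_invol (k : ℕ) (τ : Fin k → Bool) (p : (Fin k → β) × (Fin k → β)) :
    dsSwap k τ (dsSwap k τ p) = p := by
  refine Prod.ext ?_ ?_
  · funext i
    simp only [dsSwap]
    by_cases h : τ i = true
    · simp [h]
    · simp [h]
  · funext i
    simp only [dsSwap]
    by_cases h : τ i = true
    · simp [h]
    · simp [h]

/-- the bad event for one set -/
def dsBad (k t : ℕ) (G : Finset β) (p : (Fin k → β) × (Fin k → β)) : Prop :=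
  (∀ i, p.1 i ∉ G) ∧ t ≤ (univ.filter (fun i => p.2 i ∈ G)).card

omit [Fintype β] in
lemma ds_forced (k t : ℕ) (G : Finset β) (p : (Fin k → β) × (Fin k → β))
    [DecidablePred (fun τ : Fin k → Bool => dsBad k t G (dsSwap k τ p))] :
    2 ^ t * ((univ : Finset (Fin k → Bool)).filter
      (fun τ => dsBad k t G (dsSwap k τ p))).card ≤ 2 ^ k := by
  classical
  by_cases hne : ((univ : Finset (Fin k → Bool)).filter
      (fun τ => dsBad k t G (dsSwap k τ p))) = ∅
  · rw [hne]
    simp
  · obtain ⟨τ0, hτ0⟩ := Finset.nonempty_of_ne_empty hne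
    have h0 : dsBad k t G (dsSwap k τ0 p) := (mem_filter.mp hτ0).2
    set I : Finset (Fin k) := univ.filter (fun i => p.1 i ∈ G ∨ p.2 i ∈ G) with hI
    have hIt : t ≤ I.card := by
      refine h0.2.trans (Finset.card_le_card ?_)
      intro i hi
      have hi2 : (dsSwap k τ0 p).2 i ∈ G := (mem_filter.mp hi).2
      rw [hI, mem_filter]
      refine ⟨mem_univ _, ?_⟩
      simp only [dsSwap] at hi2
      by_cases h : τ0 i = true
      · rw [if_pos h] at hi2
        exact Or.inl hi2
      · rw [if_neg h] at hi2
        exact Or.inr hi2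
    have hsub : ((univ : Finset (Fin k → Bool)).filter
        (fun τ => dsBad k t G (dsSwap k τ p)))
        ⊆ Fintype.piFinset (fun i => if i ∈ I then {decide (p.1 i ∈ G)} else univ) := by
      intro τ hτ
      have h1 : dsBad k t G (dsSwap k τ p) := (mem_filter.mp hτ).2
      rw [Fintype.mem_piFinset]
      intro i
      by_cases hi : i ∈ I
      · rw [if_pos hi, mem_singleton]
        have h2 : (dsSwap k τ p).1 i ∉ G := h1.1 i
        simp only [dsSwap] at h2
        rw [hI, mem_filter] at hi
        by_cases h : τ i = true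
        · rw [if_pos h] at h2
          have h3 : p.1 i ∈ G := by
            rcases hi.2 with h4 | h4
            · exact h4
            · exact absurd h4 h2
          rw [h]
          exact (decide_eq_true h3).symm
        · rw [if_neg h] at h2
          have h5 : τ i = false := by simpa using h
          rw [h5]
          exact (decide_eq_false h2).symm
      · rw [if_neg hi]
        exact mem_univ _
    have hcard : (Fintype.piFinset (fun i : Fin k =>
        if i ∈ I then ({decide (p.1 i ∈ G)} : Finset Bool) else univ)).card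
        = 2 ^ (k - I.card) := by
      rw [Fintype.card_piFinset]
      have h6 : ∀ i : Fin k, (if i ∈ I then ({decide (p.1 i ∈ G)} : Finset Bool)
          else univ).card = if i ∈ I then 1 else 2 := by
        intro i
        by_cases hi : i ∈ I
        · rw [if_pos hi, if_pos hi, card_singleton]
        · rw [if_neg hi, if_neg hi]
          rfl
      rw [Finset.prod_congr rfl (fun i _ => h6 i), Finset.prod_ite, Finset.prod_const,
        Finset.prod_const, one_pow, one_mul]
      congr 1
      have h7 : (univ : Finset (Fin k)).filter (fun i => i ∉ I) = univ \ I := by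
        ext i
        simp
      rw [h7, Finset.card_sdiff_of_subset (Finset.subset_univ _), Finset.card_univ,
        Fintype.card_fin]
    have hIk : I.card ≤ k := by
      calc I.card ≤ (univ : Finset (Fin k)).card := Finset.card_le_univ _
        _ = k := by rw [Finset.card_univ, Fintype.card_fin]
    calc 2 ^ t * ((univ : Finset (Fin k → Bool)).filter
          (fun τ => dsBad k t G (dsSwap k τ p))).card
        ≤ 2 ^ I.card * 2 ^ (k - I.card) := by
          refine Nat.mul_le_mul (Nat.pow_le_pow_right (by norm_num) hIt) ?_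
          rw [← hcard]
          exact Finset.card_le_card hsub
      _ = 2 ^ k := by
          rw [← pow_add]
          congr 1
          omega

omit [Fintype β] in
lemma dsBad_trace (k t : ℕ) (E S : Finset β) (p : (Fin k → β) × (Fin k → β))
    (h1 : ∀ i, p.1 i ∈ S) (h2 : ∀ i, p.2 i ∈ S) :
    dsBad k t E p ↔ dsBad k t (E ∩ S) p := by
  have h3 : (univ.filter (fun i => p.2 i ∈ E)) = univ.filter (fun i => p.2 i ∈ E ∩ S) := by
    ext i
    simp [h2 i]
  unfold dsBad
  rw [h3]
  constructor
  · rintro ⟨ha, hb⟩
    exact ⟨fun i hi => ha i (mem_inter.mp hi).1, hb⟩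
  · rintro ⟨ha, hb⟩
    exact ⟨fun i hi => ha i (mem_inter.mpr ⟨hi, h1 i⟩), hb⟩

theorem ds_main (F : Finset (Finset β)) (D q k : ℕ) (hq : 1 ≤ q)
    (hn : 0 < Fintype.card β)
    (htr : ∀ S : Finset β, (F.image (fun E => E ∩ S)).card ≤ (S.card + 1) ^ D)
    (hbig : ∀ E ∈ F, Fintype.card β ≤ q * E.card)
    (hk : 2 * q * (2 * k + 1) ^ D < 2 ^ (k / (2 * q))) :
    ∃ u : Fin k → β, ∀ E ∈ F, ∃ i, u i ∈ E := by
  classical
  have hk1 : 1 ≤ k := by
    by_contra h
    have h0 : k = 0 := by omega
    rw [h0, Nat.zero_div, pow_zero, mul_zero, zero_add, one_pow, mul_one] at hk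
    omega
  by_contra hcon
  push Not at hcon
  set n := Fintype.card β with hndef
  set t := k / (2 * q) with ht
  choose E hEF hEu using hcon
  -- the set of bad pairs
  set B : Finset ((Fin k → β) × (Fin k → β)) :=
    univ.filter (fun p => ∃ G ∈ F, dsBad k t G p) with hB
  have hB1 : n ^ k * n ^ k ≤ 2 * q * B.card := by
    have h1 : ∀ u : Fin k → β, n ^ k ≤ 2 * q * ((univ : Finset (Fin k → β)).filter
        (fun v => (u, v) ∈ B)).card := by
      intro u
      refine (ds_step1 k q hk1 hn (E u) (hbig _ (hEF u))).trans ?_
      refine Nat.mul_le_mul_left _ (Finset.card_le_card ?_)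
      intro v hv
      rw [mem_filter] at hv ⊢
      refine ⟨mem_univ _, ?_⟩
      rw [hB, mem_filter]
      exact ⟨mem_univ _, E u, hEF u, hEu u, hv.2⟩
    have h2 : B.card = ∑ u : Fin k → β, ((univ : Finset (Fin k → β)).filter
        (fun v => (u, v) ∈ B)).card := by
      have h3 : B = univ.filter (fun p => p ∈ B) := by
        ext p
        simp
      rw [h3, Finset.card_filter, Fintype.sum_prod_type]
      refine Finset.sum_congr rfl (fun u _ => ?_)
      rw [Finset.card_filter]
      refine Finset.sum_congr rfl (fun v _ => ?_)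
      simp
    calc n ^ k * n ^ k = ∑ _u : Fin k → β, n ^ k := by
          rw [Finset.sum_const, Finset.card_univ, Fintype.card_fun, Fintype.card_fin,
            smul_eq_mul]
      _ ≤ ∑ u : Fin k → β, 2 * q * ((univ : Finset (Fin k → β)).filter
            (fun v => (u, v) ∈ B)).card := Finset.sum_le_sum (fun u _ => h1 u)
      _ = 2 * q * B.card := by rw [← Finset.mul_sum, ← h2]
  have hB2 : 2 ^ t * B.card ≤ n ^ k * n ^ k * (2 * k + 1) ^ D := by
    have h1 : ∀ τ : Fin k → Bool,
        (univ.filter (fun p : (Fin k → β) × (Fin k → β) => dsSwap k τ p ∈ B)).card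
          = B.card := by
      intro τ
      refine Finset.card_bij (fun p _ => dsSwap k τ p) ?_ ?_ ?_
      · intro p hp
        exact (mem_filter.mp hp).2
      · intro p _ p' _ h
        have := congrArg (dsSwap k τ) h
        simpa [dsSwap_invol] using this
      · intro p hp
        refine ⟨dsSwap k τ p, ?_, dsSwap_invol k τ p⟩
        rw [mem_filter]
        refine ⟨mem_univ _, ?_⟩
        rw [dsSwap_invol]
        exact hp
    have h2 : 2 ^ k * B.card = ∑ p : (Fin k → β) × (Fin k → β),
        (univ.filter (fun τ : Fin k → Bool => dsSwap k τ p ∈ B)).card := by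
      have h3 : ∑ p : (Fin k → β) × (Fin k → β),
          (univ.filter (fun τ : Fin k → Bool => dsSwap k τ p ∈ B)).card
          = ∑ τ : Fin k → Bool,
            (univ.filter (fun p : (Fin k → β) × (Fin k → β) => dsSwap k τ p ∈ B)).card := by
        simp_rw [Finset.card_filter]
        rw [Finset.sum_comm]
      rw [h3, Finset.sum_congr rfl (fun τ _ => h1 τ), Finset.sum_const, Finset.card_univ,
        Fintype.card_fun, Fintype.card_fin, Fintype.card_bool, smul_eq_mul]
    have h4 : ∀ p : (Fin k → β) × (Fin k → β),
        2 ^ t * (univ.filter (fun τ : Fin k → Bool => dsSwap k τ p ∈ B)).card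
          ≤ 2 ^ k * (2 * k + 1) ^ D := by
      intro p
      set S : Finset β := univ.image p.1 ∪ univ.image p.2 with hS
      have hS1 : ∀ i, p.1 i ∈ S := fun i =>
        mem_union_left _ (mem_image_of_mem _ (mem_univ i))
      have hS2 : ∀ i, p.2 i ∈ S := fun i =>
        mem_union_right _ (mem_image_of_mem _ (mem_univ i))
      have hScard : S.card ≤ 2 * k := by
        calc S.card ≤ (univ.image p.1).card + (univ.image p.2).card := card_union_le _ _
          _ ≤ (univ : Finset (Fin k)).card + (univ : Finset (Fin k)).card :=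
              Nat.add_le_add card_image_le card_image_le
          _ = 2 * k := by
              rw [Finset.card_univ, Fintype.card_fin]
              ring
      have hsub : (univ.filter (fun τ : Fin k → Bool => dsSwap k τ p ∈ B))
          ⊆ (F.image (fun G => G ∩ S)).biUnion (fun G =>
            (univ : Finset (Fin k → Bool)).filter (fun τ => dsBad k t G (dsSwap k τ p))) := by
        intro τ hτ
        have h5 : dsSwap k τ p ∈ B := (mem_filter.mp hτ).2
        rw [hB, mem_filter] at h5
        obtain ⟨-, G, hG, hbad⟩ := h5
        rw [mem_biUnion]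
        refine ⟨G ∩ S, mem_image_of_mem _ hG, ?_⟩
        rw [mem_filter]
        refine ⟨mem_univ _, ?_⟩
        refine (dsBad_trace k t G S _ ?_ ?_).mp hbad
        · intro i
          simp only [dsSwap]
          by_cases h : τ i = true
          · rw [if_pos h]
            exact hS2 i
          · rw [if_neg h]
            exact hS1 i
        · intro i
          simp only [dsSwap]
          by_cases h : τ i = true
          · rw [if_pos h]
            exact hS1 i
          · rw [if_neg h]
            exact hS2 i
      calc 2 ^ t * (univ.filter (fun τ : Fin k → Bool => dsSwap k τ p ∈ B)).card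
          ≤ 2 ^ t * ((F.image (fun G => G ∩ S)).biUnion (fun G =>
            (univ : Finset (Fin k → Bool)).filter
              (fun τ => dsBad k t G (dsSwap k τ p)))).card :=
            Nat.mul_le_mul_left _ (Finset.card_le_card hsub)
        _ ≤ 2 ^ t * ∑ G ∈ F.image (fun G => G ∩ S),
            ((univ : Finset (Fin k → Bool)).filter
              (fun τ => dsBad k t G (dsSwap k τ p))).card :=
            Nat.mul_le_mul_left _ card_biUnion_le
        _ = ∑ G ∈ F.image (fun G => G ∩ S), 2 ^ t *
            ((univ : Finset (Fin k → Bool)).filter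
              (fun τ => dsBad k t G (dsSwap k τ p))).card := by rw [Finset.mul_sum]
        _ ≤ ∑ _G ∈ F.image (fun G => G ∩ S), 2 ^ k :=
            Finset.sum_le_sum (fun G _ => ds_forced k t G p)
        _ = (F.image (fun G => G ∩ S)).card * 2 ^ k := by
            rw [Finset.sum_const, smul_eq_mul]
        _ ≤ (2 * k + 1) ^ D * 2 ^ k := by
            refine Nat.mul_le_mul_right _ ((htr S).trans ?_)
            exact Nat.pow_le_pow_left (by omega) D
        _ = 2 ^ k * (2 * k + 1) ^ D := by ring
    have h6 : 2 ^ k * (2 ^ t * B.card) ≤ 2 ^ k * (n ^ k * n ^ k * (2 * k + 1) ^ D) := by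
      calc 2 ^ k * (2 ^ t * B.card) = 2 ^ t * (2 ^ k * B.card) := by ring
        _ = ∑ p : (Fin k → β) × (Fin k → β), 2 ^ t *
            (univ.filter (fun τ : Fin k → Bool => dsSwap k τ p ∈ B)).card := by
            rw [h2, Finset.mul_sum]
        _ ≤ ∑ _p : (Fin k → β) × (Fin k → β), 2 ^ k * (2 * k + 1) ^ D :=
            Finset.sum_le_sum (fun p _ => h4 p)
        _ = 2 ^ k * (n ^ k * n ^ k * (2 * k + 1) ^ D) := by
            rw [Finset.sum_const, Finset.card_univ, Fintype.card_prod, Fintype.card_fun,
              Fintype.card_fin, smul_eq_mul]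
            ring
    exact Nat.le_of_mul_le_mul_left h6 (by positivity)
  have hpos : 0 < n ^ k * n ^ k := by positivity
  have h7 : n ^ k * n ^ k * 2 ^ t ≤ n ^ k * n ^ k * (2 * q * (2 * k + 1) ^ D) := by
    calc n ^ k * n ^ k * 2 ^ t ≤ (2 * q * B.card) * 2 ^ t := Nat.mul_le_mul_right _ hB1
      _ = 2 * q * (2 ^ t * B.card) := by ring
      _ ≤ 2 * q * (n ^ k * n ^ k * (2 * k + 1) ^ D) := Nat.mul_le_mul_left _ hB2
      _ = n ^ k * n ^ k * (2 * q * (2 * k + 1) ^ D) := by ring
  have h8 : 2 ^ t ≤ 2 * q * (2 * k + 1) ^ D := Nat.le_of_mul_le_mul_left h7 hpos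
  omega

end dsamp

theorem net_of_traces {α : Type} [DecidableEq α] (A : Finset α) (hA : A.Nonempty)
    (H : Finset (Finset α)) (D q k : ℕ) (hq : 1 ≤ q)
    (htr : ∀ S, S ⊆ A → (H.image (fun E => E ∩ S)).card ≤ (S.card + 1) ^ D)
    (hbig : ∀ E ∈ H, A.card ≤ q * (E ∩ A).card)
    (hk : 2 * q * (2 * k + 1) ^ D < 2 ^ (k / (2 * q))) :
    ∃ T : Finset α, T ⊆ A ∧ T.card ≤ k ∧ ∀ E ∈ H, (E ∩ T).Nonempty := by
  classical
  -- work on the subtype
  set f : Finset α → Finset {x // x ∈ A} := fun E => univ.filter (fun x => x.1 ∈ E) with hf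
  have hcardβ : Fintype.card {x // x ∈ A} = A.card := Fintype.card_coe A
  have hfcard : ∀ E, (f E).card = (E ∩ A).card := by
    intro E
    have h1 : (f E).map (Function.Embedding.subtype _) = E ∩ A := by
      ext x
      simp only [hf, mem_map, mem_filter, mem_univ, true_and, Function.Embedding.subtype_apply,
        mem_inter]
      constructor
      · rintro ⟨y, hy, rfl⟩
        exact ⟨hy, y.2⟩
      · rintro ⟨h1, h2⟩
        exact ⟨⟨x, h2⟩, h1, rfl⟩
    rw [← h1, card_map]
  obtain ⟨u, hu⟩ := ds_main (H.image f) D q k hq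
    (by
      rw [hcardβ]
      exact hA.card_pos)
    (by
      intro S
      set S' : Finset α := S.map (Function.Embedding.subtype _) with hS'
      have hS'A : S' ⊆ A := by
        intro x hx
        rw [hS', mem_map] at hx
        obtain ⟨y, -, rfl⟩ := hx
        exact y.2
      have h1 : ((H.image f).image (fun E => E ∩ S)).card
          ≤ (H.image (fun E => E ∩ S')).card := by
        have h2 : (H.image f).image (fun E => E ∩ S)
            = (H.image (fun E => E ∩ S')).image (fun G => f G) := by
          rw [Finset.image_image, Finset.image_image]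
          refine Finset.image_congr (fun E _ => ?_)
          ext x
          simp only [Function.comp_apply, hf, mem_inter, mem_filter, mem_univ, true_and, hS',
            mem_map, Function.Embedding.subtype_apply]
          constructor
          · rintro ⟨h1, h2⟩
            exact ⟨h1, x, h2, rfl⟩
          · rintro ⟨h1, y, h2, h3⟩
            have h4 : y = x := Subtype.ext h3
            exact ⟨h1, h4 ▸ h2⟩
        rw [h2]
        exact card_image_le
      refine h1.trans ((htr S' hS'A).trans ?_)
      rw [hS', card_map])
    (by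
      intro E hE
      obtain ⟨E', hE', rfl⟩ := mem_image.mp hE
      rw [hcardβ, hfcard]
      exact hbig E' hE')
    hk
  refine ⟨univ.image (fun i => (u i).1), ?_, ?_, ?_⟩
  · intro x hx
    obtain ⟨i, -, rfl⟩ := mem_image.mp hx
    exact (u i).2
  · calc (univ.image (fun i => (u i).1)).card ≤ (univ : Finset (Fin k)).card := card_image_le
      _ = k := by rw [Finset.card_univ, Fintype.card_fin]
  · intro E hE
    obtain ⟨i, hi⟩ := hu (f E) (mem_image_of_mem _ hE)
    refine ⟨(u i).1, ?_⟩
    rw [mem_inter]
    refine ⟨?_, mem_image_of_mem _ (mem_univ i)⟩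
    exact (mem_filter.mp hi).2

end Pool.Agent.Helper34.PN
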