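import Mathlib

/-!
Isomorphism theorem for atomless standard Borel probability spaces (exact bijections).
-/

set_option autoImplicit false

open MeasureTheory Set Filter Topology ENNReal

namespace Pool.Agent.Helper92.MeasureIso

/-- The open unit interval. -/
abbrev T : Type := Ioo (0 : ℝ) 1

instance : StandardBorelSpace T := measurableSet_Ioo.standardBorel

/-- Lebesgue measure on the open unit interval. -/
noncomputable def lam : Measure T := Measure.comap Subtype.val volume

lemma lam_apply (s : Set ℝ) : lam (Subtype.val ⁻¹' s) = volume (s ∩ Ioo (0 : ℝ) 1) := by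
  rw [lam, comap_subtype_coe_apply measurableSet_Ioo]
  congr 1
  ext y
  simp only [mem_image, mem_preimage, Subtype.exists, exists_and_left, exists_prop,
      mem_inter_iff, mem_Ioo, exists_eq_right_right]

instance : IsProbabilityMeasure lam := by
  constructor
  have := lam_apply univ
  rw [preimage_univ, univ_inter, Real.volume_Ioo] at this
  rw [this]
  simp

lemma not_countable_of_atomless {X : Type*} [MeasurableSpace X] [StandardBorelSpace X]
    (μ : Measure X) [IsProbabilityMeasure μ] (hμ : ∀ x, μ {x} = 0) : ¬ Countable X := by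
  intro hc
  have h1 : μ univ = 0 := by
    have : (univ : Set X) = ⋃ x : X, {x} := by
      ext x; simp
    rw [this]
    exact measure_iUnion_null hμ
  rw [measure_univ] at h1
  exact one_ne_zero h1

/-- In an uncountable standard Borel space with a finite measure there is an uncountable
measurable null set. -/
lemma exists_uncountable_null {X : Type*} [MeasurableSpace X] [StandardBorelSpace X]
    (hX : ¬ Countable X) (μ : Measure X) [IsFiniteMeasure μ] :
    ∃ N : Set X, MeasurableSet N ∧ μ N = 0 ∧ ¬ N.Countable := by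
  have hR : ¬ Countable (ℝ × ℝ) := by
    intro h
    have : Countable ℝ := by
      refine Function.Injective.countable (f := fun x : ℝ => (x, (0 : ℝ))) ?_
      intro a b h
      simpa using h
    exact (not_countable_iff.mpr inferInstance) this
  let e : X ≃ᵐ (ℝ × ℝ) := PolishSpace.measurableEquivOfNotCountable hX hR
  let A : ℝ → Set X := fun a => e ⁻¹' ({a} ×ˢ univ)
  have hAm : ∀ a, MeasurableSet (A a) := fun a =>
    e.measurable ((measurableSet_singleton a).prod MeasurableSet.univ)
  have hAd : Pairwise (Function.onFun Disjoint A) := by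
    intro a b hab
    rw [Function.onFun, Set.disjoint_left]
    intro x hxa hxb
    simp only [A, mem_preimage, mem_prod, mem_singleton_iff, mem_univ, and_true] at hxa hxb
    exact hab (hxa.symm.trans hxb)
  have hcount := Measure.countable_meas_pos_of_disjoint_iUnion (μ := μ) hAm hAd
  obtain ⟨a, ha⟩ : ∃ a : ℝ, a ∉ {i : ℝ | 0 < μ (A i)} := by
    by_contra hcon
    push Not at hcon
    have : (univ : Set ℝ) ⊆ {i : ℝ | 0 < μ (A i)} := fun a _ => hcon a
    exact Set.not_countable_univ (hcount.mono this)
  refine ⟨A a, hAm a, ?_, ?_⟩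
  · simpa using ha
  · intro hc
    have hinj : Function.Injective (fun y : ℝ => e.symm (a, y)) := by
      intro y z h
      have := e.symm.injective h
      simpa using this
    have hsub : (fun y : ℝ => e.symm (a, y)) '' univ ⊆ A a := by
      rintro _ ⟨y, -, rfl⟩
      simp [A]
    have h2 : ((fun y : ℝ => e.symm (a, y)) '' univ).Countable := hc.mono hsub
    exact Set.not_countable_univ (Set.countable_of_injective_of_countable_image
      hinj.injOn h2)

/-- The quantile function of an atomless probability measure on the line. -/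
lemma exists_quantile (μ : Measure ℝ) [IsProbabilityMeasure μ] (hμ : ∀ x, μ {x} = 0) :
    ∃ G : T → ℝ, MeasurableEmbedding G ∧ Measure.map G lam = μ := by
  let F : StieltjesFunction ℝ := ProbabilityTheory.cdf μ
  have hF0 : Tendsto F atBot (𝓝 0) := ProbabilityTheory.tendsto_cdf_atBot μ
  have hF1 : Tendsto F atTop (𝓝 1) := ProbabilityTheory.tendsto_cdf_atTop μ
  have hFmono : Monotone F := ProbabilityTheory.monotone_cdf μ
  have hFleft : ∀ x, Function.leftLim F x = F x := by
    intro x
    have h1 := F.measure_singleton x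
    have h2 : F.measure = μ := ProbabilityTheory.measure_cdf μ
    rw [h2, hμ x] at h1
    have h3 : F x - Function.leftLim F x ≤ 0 := by
      by_contra hcon
      push Not at hcon
      have := ENNReal.ofReal_pos.mpr hcon
      rw [← h1] at this
      exact lt_irrefl _ this
    exact le_antisymm (hFmono.leftLim_le le_rfl) (by linarith)
  let G : T → ℝ := fun t => sInf {x : ℝ | (t : ℝ) ≤ F x}
  have hne : ∀ t : T, {x : ℝ | (t : ℝ) ≤ F x}.Nonempty := by
    intro t
    have := hF1.eventually (lt_mem_nhds t.2.2)
    obtain ⟨x, hx⟩ := this.exists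
    exact ⟨x, hx.le⟩
  have hbdd : ∀ t : T, BddBelow {x : ℝ | (t : ℝ) ≤ F x} := by
    intro t
    have := hF0.eventually (gt_mem_nhds t.2.1)
    obtain ⟨x, hx⟩ := this.exists
    refine ⟨x, fun y hy => ?_⟩
    by_contra hcon
    push Not at hcon
    have h1 : F y ≤ F x := hFmono hcon.le
    have h2 : (t : ℝ) ≤ F y := hy
    exact absurd hx (not_lt.mpr (h2.trans h1))
  have hmem : ∀ t : T, (t : ℝ) ≤ F (G t) := by
    intro t
    have hr : ContinuousWithinAt F (Ici (G t)) (G t) := F.right_continuous (G t)
    have hr2 : Tendsto F (𝓝[>] (G t)) (𝓝 (F (G t))) :=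
      hr.tendsto.mono_left (nhdsWithin_mono _ Ioi_subset_Ici_self)
    refine ge_of_tendsto hr2 ?_
    filter_upwards [self_mem_nhdsWithin] with y hy
    obtain ⟨x, hx, hxy⟩ := exists_lt_of_csInf_lt (hne t) (show G t < y from hy)
    exact (show (t : ℝ) ≤ F x from hx).trans (hFmono hxy.le)
  have hgal : ∀ (t : T) (x : ℝ), G t ≤ x ↔ (t : ℝ) ≤ F x := by
    intro t x
    constructor
    · intro h
      exact (hmem t).trans (hFmono h)
    · intro h
      exact csInf_le (hbdd t) h
  have hFG : ∀ t : T, F (G t) = t := by
    intro t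
    refine le_antisymm ?_ (hmem t)
    rw [← hFleft (G t)]
    have hl : Tendsto F (𝓝[<] (G t)) (𝓝 (Function.leftLim F (G t))) :=
      hFmono.tendsto_leftLim (G t)
    refine le_of_tendsto hl ?_
    filter_upwards [self_mem_nhdsWithin] with y hy
    have : ¬ ((t : ℝ) ≤ F y) := by
      rw [← hgal t y]
      exact not_le.mpr hy
    exact (not_le.mp this).le
  have hinj : Function.Injective G := by
    intro s t h
    apply Subtype.ext
    rw [← hFG s, ← hFG t, h]
  have hmeas : Measurable G := by
    apply measurable_of_Iic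
    intro x
    have : G ⁻¹' (Iic x) = {t : T | (t : ℝ) ≤ F x} := by
      ext t
      exact hgal t x
    rw [this]
    exact measurableSet_le measurable_subtype_coe measurable_const
  refine ⟨G, hmeas.measurableEmbedding hinj, ?_⟩
  symm
  apply Measure.ext_of_Iic
  intro x
  rw [Measure.map_apply hmeas measurableSet_Iic]
  have h1 : G ⁻¹' (Iic x) = {t : T | (t : ℝ) ≤ F x} := by
    ext t
    exact hgal t x
  have h2 : {t : T | (t : ℝ) ≤ F x} = (Subtype.val : T → ℝ) ⁻¹' (Iic (F x)) := rfl
  rw [h1, h2]
  rw [lam_apply]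
  have hF0' : 0 ≤ F x := ProbabilityTheory.cdf_nonneg μ x
  have hF1' : F x ≤ 1 := ProbabilityTheory.cdf_le_one μ x
  have h4 : volume (Iic (F x) ∩ Ioo (0 : ℝ) 1) = ENNReal.ofReal (F x) := by
    apply le_antisymm
    · calc volume (Iic (F x) ∩ Ioo (0 : ℝ) 1) ≤ volume (Icc (0 : ℝ) (F x)) := by
            apply measure_mono
            rintro y ⟨h1, h2⟩
            exact ⟨h2.1.le, h1⟩
        _ = ENNReal.ofReal (F x) := by rw [Real.volume_Icc, sub_zero]
    · calc ENNReal.ofReal (F x) = volume (Ioo (0 : ℝ) (F x)) := by rw [Real.volume_Ioo, sub_zero]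
        _ ≤ volume (Iic (F x) ∩ Ioo (0 : ℝ) 1) := by
            apply measure_mono
            rintro y ⟨h1, h2⟩
            exact ⟨h2.le, h1, h2.trans_le hF1'⟩
  rw [h4]
  exact (ProbabilityTheory.ofReal_cdf μ x).symm

/-- Every atomless standard Borel probability space is isomorphic to the unit interval. -/
theorem exists_equiv_unit {X : Type*} [MeasurableSpace X] [StandardBorelSpace X]
    (μ : Measure X) [IsProbabilityMeasure μ] (hμ : ∀ x, μ {x} = 0) :
    ∃ e : T ≃ᵐ X, MeasurePreserving e lam μ := by
  classical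
  have hX : ¬ Countable X := not_countable_of_atomless μ hμ
  have hR : ¬ Countable ℝ := not_countable_iff.mpr inferInstance
  let j : X ≃ᵐ ℝ := PolishSpace.measurableEquivOfNotCountable hX hR
  have hp : IsProbabilityMeasure (Measure.map j μ) :=
    Measure.isProbabilityMeasure_map j.measurable.aemeasurable
  have hat : ∀ x, Measure.map j μ {x} = 0 := by
    intro x
    rw [Measure.map_apply j.measurable (measurableSet_singleton x)]
    have : j ⁻¹' {x} = {j.symm x} := by
      ext y
      simp only [mem_preimage, mem_singleton_iff]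
      constructor
      · rintro rfl; simp
      · rintro rfl; simp
    rw [this]
    exact hμ _
  obtain ⟨G, hG, hGmap⟩ := exists_quantile (Measure.map j μ) hat
  let i : T → X := fun t => j.symm (G t)
  have hi : MeasurableEmbedding i := j.symm.measurableEmbedding.comp hG
  have himap : Measure.map i lam = μ := by
    have : i = j.symm ∘ G := rfl
    rw [this, ← Measure.map_map j.symm.measurable hG.measurable, hGmap,
      Measure.map_map j.symm.measurable j.measurable]
    simp
  have hT : ¬ Countable T := by
    intro h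
    have : (Ioo (0 : ℝ) 1).Countable := h
    exact (Cardinal.Real.Ioo_countable_iff.mp this).not_gt one_pos
  obtain ⟨N, hNm, hN0, hNc⟩ := exists_uncountable_null hT lam
  have hB : MeasurableSet (i '' Nᶜ) := hi.measurableSet_image.mpr hNm.compl
  have : StandardBorelSpace (↥((i '' Nᶜ)ᶜ)) := hB.compl.standardBorel
  have : StandardBorelSpace (↥(Nᶜᶜ)) := hNm.compl.compl.standardBorel
  have hc1 : ¬ Countable (↥(Nᶜᶜ)) := by
    rw [compl_compl]
    exact hNc
  have hc2 : ¬ Countable (↥((i '' Nᶜ)ᶜ)) := by
    intro h
    have h1 : ((i '' Nᶜ)ᶜ).Countable := h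
    have h2 : (i '' N) ⊆ (i '' Nᶜ)ᶜ := by
      rintro _ ⟨t, ht, rfl⟩ ⟨s, hs, hst⟩
      have := hi.injective hst
      rw [this] at hs
      exact hs ht
    have h3 := h1.mono h2
    exact hNc (Set.countable_of_injective_of_countable_image hi.injective.injOn h3)
  let e1 : ↥(Nᶜ) ≃ᵐ ↥(i '' Nᶜ) := hi.equivImage _
  let e2 : ↥(Nᶜᶜ) ≃ᵐ ↥((i '' Nᶜ)ᶜ) := PolishSpace.measurableEquivOfNotCountable hc1 hc2
  let e : T ≃ᵐ X := (MeasurableEquiv.sumCompl hNm.compl).symm.trans
    ((MeasurableEquiv.sumCongr e1 e2).trans (MeasurableEquiv.sumCompl hB))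
  have he : ∀ t ∈ Nᶜ, e t = i t := by
    intro t ht
    have h1 : (MeasurableEquiv.sumCompl hNm.compl).symm t = Sum.inl ⟨t, ht⟩ := by
      apply (MeasurableEquiv.sumCompl hNm.compl).injective
      rw [MeasurableEquiv.apply_symm_apply]
      rfl
    show (MeasurableEquiv.sumCompl hB) ((MeasurableEquiv.sumCongr e1 e2)
      ((MeasurableEquiv.sumCompl hNm.compl).symm t)) = i t
    rw [h1]
    rfl
  refine ⟨e, e.measurable, ?_⟩
  rw [← himap]
  apply Measure.map_congr
  have : ∀ᵐ t ∂lam, t ∈ Nᶜ := by
    rw [ae_iff]
    simpa using hN0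
  filter_upwards [this] with t ht using he t ht

/-- **Isomorphism theorem** for atomless standard Borel probability spaces. -/
theorem exists_measurePreserving_equiv {X Y : Type*} [MeasurableSpace X] [StandardBorelSpace X]
    [MeasurableSpace Y] [StandardBorelSpace Y] (μ : Measure X) [IsProbabilityMeasure μ]
    (hμ : ∀ x, μ {x} = 0) (ν : Measure Y) [IsProbabilityMeasure ν] (hν : ∀ y, ν {y} = 0) :
    ∃ e : X ≃ᵐ Y, MeasurePreserving e μ ν := by
  obtain ⟨e1, h1⟩ := exists_equiv_unit μ hμ
  obtain ⟨e2, h2⟩ := exists_equiv_unit ν hν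
  exact ⟨e1.symm.trans e2, h2.comp (MeasurePreserving.symm e1 h1)⟩

end Pool.Agent.Helper92.MeasureIso
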